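import Pool.Agent.H1.Mono.Targets

/-!
# Module MOM: even moments of decoupled chaos
-/

open Finset

namespace Pool.Agent.H92.Mono

open Pool.Agent.H1.Mono

/-- Minkowski without roots -/
lemma mink {α Q : Type} [Fintype α] [Fintype Q] (f : Q → α → ℝ) (hf : ∀ q a, 0 ≤ f q a)
    (w : Q → ℝ) (hw : ∀ q, 0 ≤ w q) (N : ℝ) (r : ℕ) (hr : 0 < r)
    (h : ∀ q, ∑ a, f q a ^ r ≤ N * w q ^ r) :
    ∑ a, (∑ q, f q a) ^ r ≤ N * (∑ q, w q) ^ r := by
  set W := ∑ q, w q with hWdef
  have hW0 : 0 ≤ W := Finset.sum_nonneg fun q _ => hw q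
  have hzero : ∀ q, w q = 0 → ∀ a, f q a = 0 := by
    intro q hq a
    have h1 := h q
    rw [hq, zero_pow hr.ne', mul_zero] at h1
    have h2 : f q a ^ r ≤ 0 :=
      (Finset.single_le_sum (f := fun a => f q a ^ r) (fun a _ => pow_nonneg (hf q a) r)
        (Finset.mem_univ a)).trans h1
    have h3 : f q a ^ r = 0 := le_antisymm h2 (pow_nonneg (hf q a) r)
    exact pow_eq_zero_iff hr.ne' |>.1 h3
  rcases hW0.eq_or_lt with hW | hW
  · have h1 : ∀ q, w q = 0 := by
      intro q
      exact (Finset.sum_eq_zero_iff_of_nonneg (fun q _ => hw q)).1 (hWdef ▸ hW.symm) q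
        (Finset.mem_univ q)
    have h2 : ∑ a, (∑ q, f q a) ^ r = 0 := by
      refine Finset.sum_eq_zero fun a _ => ?_
      rw [Finset.sum_eq_zero fun q _ => hzero q (h1 q) a, zero_pow hr.ne']
    rw [h2, ← hW, zero_pow hr.ne', mul_zero]
  · have hconv : ∀ a, (∑ q, f q a) ^ r ≤ ∑ q, (w q / W) * (W * f q a / w q) ^ r := by
      intro a
      have h1 := Real.pow_arith_mean_le_arith_mean_pow Finset.univ (fun q => w q / W)
        (fun q => W * f q a / w q) (fun q _ => div_nonneg (hw q) hW0)
        (by rw [← Finset.sum_div, ← hWdef, div_self hW.ne'])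
        (fun q _ => div_nonneg (mul_nonneg hW0 (hf q a)) (hw q)) r
      refine le_trans (le_of_eq ?_) h1
      congr 1
      refine Finset.sum_congr rfl fun q _ => ?_
      rcases (hw q).eq_or_lt with hq | hq
      · rw [hzero q hq.symm a, ← hq]; simp
      · field_simp
    calc ∑ a, (∑ q, f q a) ^ r ≤ ∑ a, ∑ q, (w q / W) * (W * f q a / w q) ^ r :=
          Finset.sum_le_sum fun a _ => hconv a
      _ = ∑ q, (w q / W) * (W ^ r / w q ^ r) * ∑ a, f q a ^ r := by
          rw [Finset.sum_comm]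
          refine Finset.sum_congr rfl fun q _ => ?_
          rw [Finset.mul_sum]
          refine Finset.sum_congr rfl fun a _ => ?_
          rw [div_pow, mul_pow]
          ring
      _ ≤ ∑ q, (w q / W) * (N * W ^ r) := by
          refine Finset.sum_le_sum fun q _ => ?_
          rcases (hw q).eq_or_lt with hq | hq
          · rw [← hq]; simp
          · have hwr : 0 < w q ^ r := pow_pos hq r
            have hWr : 0 < W ^ r := pow_pos hW r
            calc (w q / W) * (W ^ r / w q ^ r) * ∑ a, f q a ^ r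
                ≤ (w q / W) * (W ^ r / w q ^ r) * (N * w q ^ r) :=
                  mul_le_mul_of_nonneg_left (h q) (by positivity)
              _ = (w q / W) * (N * W ^ r) := by field_simp
      _ = N * W ^ r := by
          rw [← Finset.sum_mul, ← Finset.sum_div, ← hWdef, div_self hW.ne', one_mul]

lemma momN (hKH : KH_target) {Q : Type} [Fintype Q] [DecidableEq Q] (r : ℕ) (hr : 0 < r) (n : ℕ) :
    ∀ c : (Fin n → Q) → ℝ,
    ∑ y : Fin n → Q → Bool, (∑ β : Fin n → Q, c β * ∏ i, sgn (y i (β i))) ^ (2 * r) ≤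
      2 ^ (n * Fintype.card Q) * (2 * r : ℝ) ^ (r * n) * (∑ β : Fin n → Q, c β ^ 2) ^ r := by
  induction n with
  | zero =>
    intro c
    simp [pow_mul]
  | succ n ih =>
    intro c
    -- split off the first coordinate
    have e1 : ∑ y : Fin (n + 1) → Q → Bool,
        (∑ β : Fin (n + 1) → Q, c β * ∏ i, sgn (y i (β i))) ^ (2 * r) =
        ∑ y' : Fin n → Q → Bool, ∑ y0 : Q → Bool,
          (∑ q, (∑ β' : Fin n → Q, c (Fin.cons q β') * ∏ i, sgn (y' i (β' i))) * sgn (y0 q)) ^
            (2 * r) := by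
      rw [← (Fin.consEquiv fun _ : Fin (n + 1) => (Q → Bool)).sum_comp, Fintype.sum_prod_type,
        Finset.sum_comm]
      refine Finset.sum_congr rfl fun y' _ => Finset.sum_congr rfl fun y0 _ => ?_
      congr 1
      rw [← (Fin.consEquiv fun _ : Fin (n + 1) => Q).sum_comp, Fintype.sum_prod_type]
      refine Finset.sum_congr rfl fun q _ => ?_
      rw [Finset.sum_mul]
      refine Finset.sum_congr rfl fun β' _ => ?_
      rw [Fin.prod_univ_succ]
      simp only [Fin.consEquiv, Equiv.coe_fn_mk, Fin.cons_zero, Fin.cons_succ]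
      ring
    rw [e1]
    have hstep : ∀ y' : Fin n → Q → Bool, ∑ y0 : Q → Bool,
        (∑ q, (∑ β' : Fin n → Q, c (Fin.cons q β') * ∏ i, sgn (y' i (β' i))) * sgn (y0 q)) ^
            (2 * r) ≤ 2 ^ Fintype.card Q * (2 * r : ℝ) ^ r *
          (∑ q, (∑ β' : Fin n → Q, c (Fin.cons q β') * ∏ i, sgn (y' i (β' i))) ^ 2) ^ r :=
      fun y' => hKH _ r
    refine (Finset.sum_le_sum fun y' _ => hstep y').trans ?_
    rw [← Finset.mul_sum]
    have hm := mink (α := Fin n → Q → Bool) (Q := Q)
      (fun q y' => (∑ β' : Fin n → Q, c (Fin.cons q β') * ∏ i, sgn (y' i (β' i))) ^ 2)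
      (fun q a => sq_nonneg _) (fun q => (2 * r : ℝ) ^ n * ∑ β' : Fin n → Q, c (Fin.cons q β') ^ 2)
      (fun q => mul_nonneg (by positivity) (Finset.sum_nonneg fun _ _ => sq_nonneg _))
      (2 ^ (n * Fintype.card Q)) r hr (by
        intro q
        have h1 := ih (fun β' => c (Fin.cons q β'))
        refine le_trans (le_of_eq ?_) (h1.trans (le_of_eq ?_))
        · refine Finset.sum_congr rfl fun y' _ => ?_
          rw [← pow_mul]
        · rw [mul_pow ((2 * r : ℝ) ^ n), ← pow_mul, mul_comm n r]; ring)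
    have hsum : ∑ q, (2 * r : ℝ) ^ n * ∑ β' : Fin n → Q, c (Fin.cons q β') ^ 2 =
        (2 * r : ℝ) ^ n * ∑ β : Fin (n + 1) → Q, c β ^ 2 := by
      rw [← Finset.mul_sum]
      congr 1
      rw [← (Fin.consEquiv fun _ : Fin (n + 1) => Q).sum_comp, Fintype.sum_prod_type]
      rfl
    rw [hsum] at hm
    refine (mul_le_mul_of_nonneg_left hm (by positivity)).trans (le_of_eq ?_)
    rw [mul_pow ((2 * r : ℝ) ^ n), ← pow_mul]
    have e2 : (n + 1) * Fintype.card Q = n * Fintype.card Q + Fintype.card Q := by ring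
    have e3 : r * (n + 1) = n * r + r := by ring
    rw [e2, e3, pow_add, pow_add]
    ring

theorem mom (hKH : KH_target) : MOM_target := by
  intro Q ι _ _ _ _ c r
  rcases Nat.eq_zero_or_pos r with hr | hr
  · subst hr
    simp [Fintype.card_pi, ← pow_mul, mul_comm]
  · set e := Fintype.equivFin ι with he
    have h1 := momN hKH r hr (Fintype.card ι) (fun β => c (fun i => β (e i)))
    have e1 : ∑ y : ι → Q → Bool, (∑ β : ι → Q, c β * ∏ i, sgn (y i (β i))) ^ (2 * r) =
        ∑ y : Fin (Fintype.card ι) → Q → Bool, (∑ β : Fin (Fintype.card ι) → Q,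
          c (fun i => β (e i)) * ∏ i, sgn (y i (β i))) ^ (2 * r) := by
      rw [← (Equiv.arrowCongr e (Equiv.refl (Q → Bool))).sum_comp]
      refine Finset.sum_congr rfl fun y _ => ?_
      congr 1
      rw [← (Equiv.arrowCongr e (Equiv.refl Q)).sum_comp]
      refine Finset.sum_congr rfl fun β _ => ?_
      congr 1
      · congr 1
        funext i
        simp [Equiv.arrowCongr]
      · rw [← e.prod_comp]
        refine Finset.prod_congr rfl fun i _ => ?_
        simp [Equiv.arrowCongr]
    have e2 : ∑ β : ι → Q, c β ^ 2 = ∑ β : Fin (Fintype.card ι) → Q, c (fun i => β (e i)) ^ 2 := by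
      rw [← (Equiv.arrowCongr e (Equiv.refl Q)).sum_comp]
      refine Finset.sum_congr rfl fun β _ => ?_
      congr 2
      funext i
      simp [Equiv.arrowCongr]
    rw [e1, e2]
    exact h1

end Pool.Agent.H92.Mono
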