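import Pool.Agent.H1.Mono.Targets

/-!
# Module FR: full range by Fourier expansion
-/

open Finset

namespace Pool.Agent.H92.Mono

open Pool.Agent.H1.Mono

variable {V Q : Type} [Fintype V] [DecidableEq V] [Fintype Q] [DecidableEq Q]

/-- the character sums -/
def fK (Y : Finset (V → Q → Bool)) (K : Finset V) (x : V → Q) : ℝ :=
  ∑ y ∈ Y, ∏ i ∈ K, sgn (y i (x i))

/-- the coefficients -/
def cK (Y : Finset (V → Q → Bool)) (K : Finset V) (β : {i // i ∈ K} → Q) : ℝ :=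
  ∑ y ∈ Y, ∏ i : {i // i ∈ K}, sgn (y i.1 (β i))

omit [Fintype V] [Fintype Q] [DecidableEq Q] in
lemma fK_eq (Y : Finset (V → Q → Bool)) (K : Finset V) (x : V → Q) :
    fK Y K x = cK Y K (fun i => x i.1) := by
  unfold fK cK
  refine Finset.sum_congr rfl fun y _ => ?_
  rw [Finset.prod_coe_sort K (fun i => sgn (y i (x i)))]

omit [Fintype V] [DecidableEq V] [Fintype Q] [DecidableEq Q] in
lemma sgn_mul (a b : Bool) : sgn a * sgn b = if a = b then 1 else -1 := by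
  unfold sgn
  cases a <;> cases b <;> simp

/-- positivity of the Fourier expansion gives a point -/
lemma exists_y (Y : Finset (V → Q → Bool)) (I : Finset V) (x : V → Q)
    (h : ∑ K ∈ (Iᶜ).powerset.erase ∅, |fK Y K x| < Y.card) (z : V → Bool) :
    ∃ y ∈ Y, ∀ i, i ∉ I → y i (x i) = z i := by
  by_contra hno
  push Not at hno
  have hzero : ∀ y ∈ Y, ∏ i ∈ Iᶜ, (1 + sgn (z i) * sgn (y i (x i))) = 0 := by
    intro y hy
    obtain ⟨i, hi, hne⟩ := hno y hy
    refine Finset.prod_eq_zero (Finset.mem_compl.2 hi) ?_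
    rw [sgn_mul, if_neg (Ne.symm hne)]
    norm_num
  have h1 : ∑ y ∈ Y, ∏ i ∈ Iᶜ, (1 + sgn (z i) * sgn (y i (x i))) =
      ∑ K ∈ (Iᶜ).powerset, (∏ i ∈ K, sgn (z i)) * fK Y K x := by
    unfold fK
    simp_rw [Finset.prod_one_add, Finset.prod_mul_distrib]
    rw [Finset.sum_comm]
    refine Finset.sum_congr rfl fun K _ => ?_
    rw [Finset.mul_sum]
  rw [Finset.sum_eq_zero hzero] at h1
  rw [← Finset.add_sum_erase _ _ (Finset.empty_mem_powerset _)] at h1
  have h2 : fK Y ∅ x = Y.card := by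
    unfold fK
    simp
  rw [h2, Finset.prod_empty, one_mul] at h1
  have h3 : -(∑ K ∈ (Iᶜ).powerset.erase ∅, |fK Y K x|) ≤
      ∑ K ∈ (Iᶜ).powerset.erase ∅, (∏ i ∈ K, sgn (z i)) * fK Y K x := by
    rw [← Finset.sum_neg_distrib]
    refine Finset.sum_le_sum fun K _ => ?_
    have h4 : |(∏ i ∈ K, sgn (z i)) * fK Y K x| = |fK Y K x| := by
      rw [abs_mul, Finset.abs_prod]
      have : ∏ i ∈ K, |sgn (z i)| = 1 := by
        refine Finset.prod_eq_one fun i _ => ?_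
        unfold sgn
        split_ifs <;> simp
      rw [this, one_mul]
    rw [← h4]
    exact neg_abs_le _
  linarith

/-- second moment -/
lemma second_moment (hLVL : LVL_target) (X : Finset (V → Q)) (I : Finset V) (lam : ℝ)
    (Y : Finset (V → Q → Bool)) (Δ : ℕ) (hX : X.Nonempty) (hlam : 0 ≤ lam) (hD : Dense lam I X)
    (hΔ : 0 < Δ) (hY : 2 ^ (Fintype.card V * Fintype.card Q) ≤ Y.card * 2 ^ Δ) (K : Finset V)
    (hK : Disjoint K I) :
    ∑ x ∈ X, fK Y K x ^ 2 ≤ lam ^ K.card * X.card * (2 * (2 * Δ : ℝ) ^ K.card * (Y.card : ℝ) ^ 2) := by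
  have h1 : ∑ x ∈ X, fK Y K x ^ 2 =
      ∑ β : {i // i ∈ K} → Q, ((X.filter fun x => (fun i : {i // i ∈ K} => x i.1) = β).card : ℝ) *
        cK Y K β ^ 2 := by
    simp_rw [fK_eq]
    rw [← Finset.sum_fiberwise X (fun x => (fun i : {i // i ∈ K} => x i.1))]
    refine Finset.sum_congr rfl fun β _ => ?_
    rw [Finset.sum_congr rfl (g := fun _ => cK Y K β ^ 2), Finset.sum_const, nsmul_eq_mul]
    intro x hx
    rw [(Finset.mem_filter.1 hx).2]
  obtain ⟨x0, hx0⟩ := hX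
  have h2 : ∀ β : {i // i ∈ K} → Q,
      ((X.filter fun x => (fun i : {i // i ∈ K} => x i.1) = β).card : ℝ) ≤ lam ^ K.card * X.card := by
    intro β
    have h3 := hD K hK (fun i => if h : i ∈ K then β ⟨i, h⟩ else x0 i)
    refine le_trans ?_ h3
    have : (X.filter fun x => (fun i : {i // i ∈ K} => x i.1) = β) ⊆
        X.filter fun x => ∀ i ∈ K, x i = (if h : i ∈ K then β ⟨i, h⟩ else x0 i) := by
      intro x hx
      rw [Finset.mem_filter] at hx ⊢
      refine ⟨hx.1, fun i hi => ?_⟩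
      rw [dif_pos hi, ← hx.2]
    exact_mod_cast Finset.card_le_card this
  rw [h1]
  refine (Finset.sum_le_sum fun β _ => mul_le_mul_of_nonneg_right (h2 β) (sq_nonneg _)).trans ?_
  rw [← Finset.mul_sum]
  exact mul_le_mul_of_nonneg_left (hLVL Y K Δ hΔ hY) (by positivity)

lemma one_add_pow_le {θ : ℝ} (hθ : 0 ≤ θ) (n m : ℕ) (hm : m ≤ n) (h : θ * n ≤ 1 / 4) :
    (1 + θ) ^ m ≤ 4 / 3 := by
  rcases Nat.eq_zero_or_pos n with hn | hn
  · have : m = 0 := by omega
    rw [this]; norm_num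
  have hn1 : (1 : ℝ) ≤ n := by exact_mod_cast hn
  have hθ1 : θ ≤ 1 / 4 := by nlinarith
  have h1 : 1 - θ * m ≤ (1 - θ) ^ m := by
    have := one_add_mul_le_pow (a := -θ) (by linarith) m
    have e1 : 1 + (m : ℝ) * -θ = 1 - θ * m := by ring
    have e2 : (1 + -θ) = 1 - θ := by ring
    rw [e1, e2] at this
    exact this
  have h2 : (1 + θ) ^ m * (1 - θ) ^ m ≤ 1 := by
    rw [← mul_pow]
    exact pow_le_one₀ (by nlinarith) (by nlinarith)
  have hmn : (m : ℝ) ≤ n := by exact_mod_cast hm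
  have h3 : 3 / 4 ≤ (1 - θ) ^ m := by nlinarith
  have h4 : 0 ≤ (1 + θ) ^ m := by positivity
  nlinarith

theorem fr (hLVL : LVL_target) : FR_target := by
  intro V Q _ _ _ _ X I lam Y Δ hX hlam hD hΔ hY hsmall
  have hYne : Y.Nonempty := by
    rcases Y.eq_empty_or_nonempty with h | h
    · rw [h, Finset.card_empty, Nat.zero_mul] at hY
      exact absurd hY (not_le.2 (by positivity))
    · exact h
  have hYc : (0 : ℝ) < Y.card := by exact_mod_cast hYne.card_pos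
  have hXc : (0 : ℝ) < X.card := by exact_mod_cast hX.card_pos
  set θ := Real.sqrt (2 * Δ * lam) with hθ
  have hθ0 : 0 ≤ θ := Real.sqrt_nonneg _
  have hθ2 : θ ^ 2 = 2 * Δ * lam := Real.sq_sqrt (by positivity)
  have hθn : θ * Fintype.card V ≤ 1 / 4 := by
    have h1 : (θ * Fintype.card V) ^ 2 ≤ (1 / 4) ^ 2 := by
      rw [mul_pow, hθ2]
      linarith
    exact le_of_pow_le_pow_left₀ two_ne_zero (by norm_num) h1
  -- first moment
  have hfirst : ∀ K : Finset V, Disjoint K I →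
      ∑ x ∈ X, |fK Y K x| ≤ 3 / 2 * θ ^ K.card * X.card * Y.card := by
    intro K hK
    have h1 := second_moment hLVL X I lam Y Δ hX hlam hD hΔ hY K hK
    have h2 : (∑ x ∈ X, |fK Y K x|) ^ 2 ≤ X.card * ∑ x ∈ X, |fK Y K x| ^ 2 :=
      sq_sum_le_card_mul_sum_sq
    simp_rw [sq_abs] at h2
    have h3 : (∑ x ∈ X, |fK Y K x|) ^ 2 ≤ (3 / 2 * θ ^ K.card * X.card * Y.card) ^ 2 := by
      refine h2.trans ((mul_le_mul_of_nonneg_left h1 hXc.le).trans ?_)
      have e1 : (3 / 2 * θ ^ K.card * X.card * Y.card) ^ 2 =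
          9 / 4 * ((θ ^ 2) ^ K.card) * (X.card : ℝ) ^ 2 * (Y.card : ℝ) ^ 2 := by
        rw [← pow_mul, mul_comm 2 K.card, pow_mul]
        ring
      have e2 : (X.card : ℝ) * (lam ^ K.card * X.card * (2 * (2 * Δ : ℝ) ^ K.card *
          (Y.card : ℝ) ^ 2)) = 2 * ((θ ^ 2) ^ K.card) * (X.card : ℝ) ^ 2 * (Y.card : ℝ) ^ 2 := by
        rw [hθ2, mul_pow (2 * (Δ : ℝ)) lam]
        ring
      rw [e1, e2]
      have : 0 ≤ (θ ^ 2) ^ K.card * (X.card : ℝ) ^ 2 * (Y.card : ℝ) ^ 2 := by positivity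
      nlinarith
    exact le_of_pow_le_pow_left₀ two_ne_zero (by positivity) h3
  have hdisj : ∀ K ∈ (Iᶜ).powerset, Disjoint K I := by
    intro K hK
    rw [Finset.mem_powerset] at hK
    exact Finset.disjoint_left.2 fun i hi hi' => (Finset.mem_compl.1 (hK hi)) hi'
  have hsum : ∑ x ∈ X, ∑ K ∈ (Iᶜ).powerset.erase ∅, |fK Y K x| < ∑ _x ∈ X, (Y.card : ℝ) := by
    rw [Finset.sum_comm, Finset.sum_const, nsmul_eq_mul]
    have h1 : ∑ K ∈ (Iᶜ).powerset.erase ∅, ∑ x ∈ X, |fK Y K x| ≤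
        ∑ K ∈ (Iᶜ).powerset.erase ∅, 3 / 2 * θ ^ K.card * X.card * Y.card :=
      Finset.sum_le_sum fun K hK => hfirst K (hdisj K (Finset.mem_of_mem_erase hK))
    have h2 : ∑ K ∈ (Iᶜ).powerset, θ ^ K.card = (1 + θ) ^ (Iᶜ).card := by
      rw [← Finset.prod_const, Finset.prod_one_add]
      refine Finset.sum_congr rfl fun K _ => ?_
      rw [Finset.prod_const]
    have h3 : ∑ K ∈ (Iᶜ).powerset.erase ∅, θ ^ K.card = (1 + θ) ^ (Iᶜ).card - 1 := by
      rw [← h2, ← Finset.add_sum_erase _ _ (Finset.empty_mem_powerset _)]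
      simp
    have h4 := one_add_pow_le hθ0 (Fintype.card V) (Iᶜ).card (Finset.card_le_univ _) hθn
    have h5 : ∑ K ∈ (Iᶜ).powerset.erase ∅, 3 / 2 * θ ^ K.card * X.card * Y.card =
        3 / 2 * ((1 + θ) ^ (Iᶜ).card - 1) * X.card * Y.card := by
      rw [← h3, Finset.mul_sum, Finset.sum_mul, Finset.sum_mul]
    rw [h5] at h1
    have h6 : 0 < (X.card : ℝ) * Y.card := by positivity
    nlinarith
  obtain ⟨x, hx, hlt⟩ := Finset.exists_lt_of_sum_lt hsum
  exact ⟨x, hx, fun z => exists_y Y I x hlt z⟩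

end Pool.Agent.H92.Mono
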