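import Pool.Agent.H1.Mono.Targets

/-!
# Module LVL: level inequality
-/

open Finset

namespace Pool.Agent.H92.Mono

open Pool.Agent.H1.Mono

lemma pow_sum_even {α : Type} (s : Finset α) (hs : s.Nonempty) (P : α → ℝ) (r : ℕ) (hr : 0 < r) :
    (∑ y ∈ s, P y) ^ (2 * r) ≤ (s.card : ℝ) ^ (2 * r - 1) * ∑ y ∈ s, P y ^ (2 * r) := by
  obtain ⟨c, hcdef⟩ : ∃ c : ℝ, c = (s.card : ℝ) := ⟨_, rfl⟩
  have hc : 0 < c := by rw [hcdef]; exact_mod_cast hs.card_pos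
  have h1 := Real.pow_arith_mean_le_arith_mean_pow_of_even s (fun _ => c⁻¹) P
    (fun _ _ => inv_nonneg.2 hc.le)
    (by rw [Finset.sum_const, nsmul_eq_mul, ← hcdef, mul_inv_cancel₀ hc.ne'])
    (even_two_mul r)
  rw [← Finset.mul_sum, ← Finset.mul_sum, mul_pow] at h1
  obtain ⟨m, hm⟩ : ∃ m, 2 * r = m + 1 := ⟨2 * r - 1, by omega⟩
  have h2 : 2 * r - 1 = m := by omega
  rw [h2, ← hcdef]
  rw [hm] at h1 ⊢
  obtain ⟨A, hA⟩ : ∃ A : ℝ, A = (∑ y ∈ s, P y) ^ (m + 1) := ⟨_, rfl⟩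
  obtain ⟨B, hB⟩ : ∃ B : ℝ, B = ∑ y ∈ s, P y ^ (m + 1) := ⟨_, rfl⟩
  rw [← hA, ← hB] at h1 ⊢
  have hcc : c⁻¹ ^ (m + 1) * c ^ (m + 1) = 1 := by
    rw [← mul_pow, inv_mul_cancel₀ hc.ne', one_pow]
  have hc1 : c⁻¹ * c = 1 := inv_mul_cancel₀ hc.ne'
  have h3 := mul_le_mul_of_nonneg_right h1 (pow_nonneg hc.le (m + 1))
  calc A = (c⁻¹ ^ (m + 1) * c ^ (m + 1)) * A := by rw [hcc, one_mul]
    _ = c⁻¹ ^ (m + 1) * A * c ^ (m + 1) := by ring
    _ ≤ c⁻¹ * B * c ^ (m + 1) := h3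
    _ = (c⁻¹ * c) * (c ^ m * B) := by rw [pow_succ]; ring
    _ = c ^ m * B := by rw [hc1, one_mul]

lemma sum_restrict {V Q : Type} [Fintype V] [DecidableEq V] [Fintype Q] [DecidableEq Q]
    (K : Finset V) (F : ({i // i ∈ K} → Q → Bool) → ℝ) :
    ∑ y : V → Q → Bool, F (fun i => y i.1) =
      2 ^ ((Fintype.card V - K.card) * Fintype.card Q) * ∑ y : {i // i ∈ K} → Q → Bool, F y := by
  rw [← (Equiv.piEquivPiSubtypeProd (fun i => i ∈ K) (fun _ => Q → Bool)).symm.sum_comp,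
    Fintype.sum_prod_type, Finset.mul_sum]
  refine Finset.sum_congr rfl fun y _ => ?_
  have h1 : ∀ z : {i // ¬ i ∈ K} → Q → Bool,
      F (fun i => (Equiv.piEquivPiSubtypeProd (fun i => i ∈ K) (fun _ => Q → Bool)).symm (y, z) i.1)
        = F y := by
    intro z
    congr 1
    funext i
    simp [Equiv.piEquivPiSubtypeProd]
  rw [Finset.sum_congr rfl fun z _ => h1 z, Finset.sum_const, nsmul_eq_mul]
  congr 1
  rw [Finset.card_univ, Fintype.card_fun, Fintype.card_fun, Fintype.card_bool]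
  have h2 : Fintype.card {i // ¬ i ∈ K} = Fintype.card V - K.card := by
    rw [Fintype.card_subtype_compl]
    simp
  rw [h2]
  push_cast
  rw [← pow_mul, mul_comm]

theorem lvl (hMOM : MOM_target) : LVL_target := by
  intro V Q _ _ _ _ Y K Δ hΔ hY
  have hYne : Y.Nonempty := by
    rcases Y.eq_empty_or_nonempty with h | h
    · rw [h, Finset.card_empty, Nat.zero_mul] at hY
      exact absurd hY (not_le.2 (by positivity))
    · exact h
  have hYc : (0 : ℝ) < Y.card := by exact_mod_cast hYne.card_pos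
  set c : ({i // i ∈ K} → Q) → ℝ := fun β => ∑ y ∈ Y, ∏ i : {i // i ∈ K}, sgn (y i.1 (β i)) with hc
  set S := ∑ β, c β ^ 2 with hS
  have hS0 : 0 ≤ S := Finset.sum_nonneg fun _ _ => sq_nonneg _
  set P : (V → Q → Bool) → ℝ := fun y => ∑ β, c β * ∏ i : {i // i ∈ K}, sgn (y i.1 (β i)) with hP
  have h1 : S = ∑ y ∈ Y, P y := by
    rw [hS, hP, Finset.sum_comm]
    refine Finset.sum_congr rfl fun β _ => ?_
    rw [← Finset.mul_sum, sq]
  have h2 : S ^ (2 * Δ) ≤ (Y.card : ℝ) ^ (2 * Δ - 1) * ∑ y ∈ Y, P y ^ (2 * Δ) := by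
    rw [h1]
    exact pow_sum_even Y hYne P Δ hΔ
  have h3 : ∑ y ∈ Y, P y ^ (2 * Δ) ≤ ∑ y, P y ^ (2 * Δ) :=
    Finset.sum_le_sum_of_subset_of_nonneg (Finset.subset_univ _)
      fun y _ _ => (even_two_mul Δ).pow_nonneg _
  have h4 := sum_restrict K (fun y : {i // i ∈ K} → Q → Bool =>
    (∑ β, c β * ∏ i : {i // i ∈ K}, sgn (y i (β i))) ^ (2 * Δ))
  have h5 := hMOM (Q := Q) (ι := {i // i ∈ K}) c Δ
  rw [Fintype.card_coe] at h5
  have hKV : K.card ≤ Fintype.card V := Finset.card_le_univ K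
  have h6 : ∑ y, P y ^ (2 * Δ) ≤ 2 ^ (Fintype.card V * Fintype.card Q) *
      ((2 * Δ : ℝ) ^ (Δ * K.card) * S ^ Δ) := by
    rw [hP]
    refine (le_of_eq h4).trans ((mul_le_mul_of_nonneg_left h5 (by positivity)).trans
      (le_of_eq ?_))
    have e : Fintype.card V * Fintype.card Q =
        (Fintype.card V - K.card) * Fintype.card Q + K.card * Fintype.card Q := by
      rw [← Nat.add_mul, Nat.sub_add_cancel hKV]
    rw [e, pow_add]
    ring
  have hY' : (2 : ℝ) ^ (Fintype.card V * Fintype.card Q) ≤ Y.card * 2 ^ Δ := by exact_mod_cast hY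
  set D : ℝ := (2 * Δ : ℝ) ^ K.card with hD
  have hD0 : 0 ≤ D := by positivity
  have h7 : S ^ (2 * Δ) ≤ (2 * D * (Y.card : ℝ) ^ 2 * S) ^ Δ := by
    calc S ^ (2 * Δ) ≤ (Y.card : ℝ) ^ (2 * Δ - 1) *
          (2 ^ (Fintype.card V * Fintype.card Q) * ((2 * Δ : ℝ) ^ (Δ * K.card) * S ^ Δ)) :=
        h2.trans (mul_le_mul_of_nonneg_left (h3.trans h6) (by positivity))
      _ ≤ (Y.card : ℝ) ^ (2 * Δ - 1) *
          ((Y.card * 2 ^ Δ) * ((2 * Δ : ℝ) ^ (Δ * K.card) * S ^ Δ)) := by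
        refine mul_le_mul_of_nonneg_left (mul_le_mul_of_nonneg_right hY' ?_) (by positivity)
        exact mul_nonneg (by positivity) (pow_nonneg hS0 _)
      _ = (2 * D * (Y.card : ℝ) ^ 2 * S) ^ Δ := by
        have e1 : (Y.card : ℝ) ^ (2 * Δ - 1) * Y.card = ((Y.card : ℝ) ^ 2) ^ Δ := by
          rw [← pow_succ, ← pow_mul]
          congr 1
          omega
        have e2 : (2 * Δ : ℝ) ^ (Δ * K.card) = D ^ Δ := by
          rw [hD, ← pow_mul, mul_comm Δ K.card]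
        rw [e2, mul_pow (2 * D * (Y.card : ℝ) ^ 2) S, mul_pow (2 * D), mul_pow 2 D, ← e1]
        ring
  rw [pow_mul] at h7
  have h8 : S ^ 2 ≤ 2 * D * (Y.card : ℝ) ^ 2 * S := by
    have h9 : 0 ≤ 2 * D * (Y.card : ℝ) ^ 2 * S := mul_nonneg (by positivity) hS0
    exact le_of_pow_le_pow_left₀ hΔ.ne' h9 h7
  rcases hS0.eq_or_lt with h | h
  · rw [← h]
    positivity
  · have : S * S ≤ (2 * D * (Y.card : ℝ) ^ 2) * S := by rw [← sq]; exact h8
    exact le_of_mul_le_mul_right this h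

end Pool.Agent.H92.Mono
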